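import Pool.Agent.R520.Ex21

set_option autoImplicit false

/-!
# A polygonal digraph of odd order with Laplacian spread one

The digraph has 21 vertices. There are five pairs `X_i` joined by arcs in both directions, five pairs `Y_i` with no
arc inside, and one more vertex `z`; all other pairs of vertices are joined by exactly one arc. `X_i → X_j` and
`Y_i → Y_j` completely for `j - i = 1, 2` modulo `5`, `z → X` and `Y → z` completely, and between `X_i = {x, x'}` and
`Y_j = {y, y'}` the arcs are `x → y → x' → y' → x`, up to exchanging `y` and `y'`, which is done when `i = j`. All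
outdegrees are `10`. The real parts of the restricted numerical range fill `[10, 11]`, its imaginary parts are at most
`κ = cot 18°` in absolute value, and the four corners `10 ± iκ`, `11 ± iκ` are eigenvalues.
-/

namespace Pool.Agent.Results.MP_8a2148_co.OddOrder

open Pool.Agent.R520

/-- There is a polygonal digraph of order `21` with Laplacian spread `1`. -/
theorem result : ∃ (V : Type) (_ : Fintype V) (_ : DecidableEq V) (Γ : V → V → Prop),
    (∀ i, ¬ Γ i i) ∧ Fintype.card V = 21 ∧ Polygonal Γ ∧ spread Γ = 1 :=
  ⟨Ex21.W, inferInstance, inferInstance, Ex21.Γ, Ex21.loopless, Ex21.card_W, Ex21.polygonal, Ex21.spread_eq⟩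

end Pool.Agent.Results.MP_8a2148_co.OddOrder
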